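import Mathlib

/-!
# Greedy embedding of induced subgraphs

`F` is a graph on `Fin k`, the candidate sets `V_ i` are large, edges of `F` correspond to pairs of
sets which are dense on all large subsets, and no two large sets of vertices of `G` have density
more than 3/4. Then `G` has an induced copy of `F` with the vertex `i` in `V_ i`.
-/

set_option autoImplicit false

namespace Pool.Agent.Helper18.UN

open Finset

variable {V : Type*} [Fintype V] [DecidableEq V]

/-- number of adjacent pairs -/
noncomputable def ed (G : SimpleGraph V) [DecidableRel G.Adj] (A B : Finset V) : ℝ :=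
  ((A ×ˢ B).filter fun q => G.Adj q.1 q.2).card

theorem ed_eq (G : SimpleGraph V) [DecidableRel G.Adj] (A B : Finset V) :
    ed G A B = ∑ v ∈ A, ((B.filter fun u => G.Adj v u).card : ℝ) := by
  unfold ed
  rw [← Nat.cast_sum]
  congr 1
  rw [card_filter, sum_product]
  refine sum_congr rfl fun v _ => ?_
  rw [card_filter]

/-- the new candidate set -/
def cand (G : SimpleGraph V) [DecidableRel G.Adj] (C : Finset V) (v : V) (p : Prop) [Decidable p] :
    Finset V :=
  C.filter fun u => u ≠ v ∧ (G.Adj v u ↔ p)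

theorem bad_small (G : SimpleGraph V) [DecidableRel G.Adj] (θ m : ℝ) (hθ0 : 0 < θ)
    (hθ1 : θ ≤ 1 / 8) (hm : 8 ≤ m) (p : Prop) [Decidable p] (A C : Finset V)
    (hC : m ≤ C.card)
    (hadj : p → ∀ A' ⊆ A, m ≤ (A'.card : ℝ) → θ * (A'.card * C.card) ≤ ed G A' C)
    (hnon : ∀ A' : Finset V, m ≤ (A'.card : ℝ) → ed G A' C ≤ 3 / 4 * (A'.card * C.card)) :
    ((A.filter fun v => ((cand G C v p).card : ℝ) < θ * C.card).card : ℝ) < m := by
  by_contra hcon
  push Not at hcon
  set B := A.filter fun v => ((cand G C v p).card : ℝ) < θ * C.card with hB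
  have hBn : B.Nonempty := by
    rw [← card_pos]
    have h1 : (0 : ℝ) < B.card := by linarith
    exact_mod_cast h1
  by_cases hp : p
  · have h1 := hadj hp B (filter_subset _ _) hcon
    have h2 : ed G B C < ∑ _v ∈ B, θ * (C.card : ℝ) := by
      rw [ed_eq]
      refine sum_lt_sum_of_nonempty hBn fun v hv => ?_
      have h3 := (mem_filter.1 hv).2
      have h4 : (C.filter fun u => G.Adj v u) = cand G C v p := by
        unfold cand
        refine filter_congr fun u _ => ?_
        constructor
        · intro h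
          exact ⟨(G.ne_of_adj h).symm, iff_of_true h hp⟩
        · intro h
          exact h.2.2 hp
      rw [h4]
      exact h3
    rw [sum_const, nsmul_eq_mul] at h2
    nlinarith
  · have h1 := hnon B hcon
    have h2 : ∑ _v ∈ B, (3 / 4 : ℝ) * (C.card : ℝ) < ed G B C := by
      rw [ed_eq]
      refine sum_lt_sum_of_nonempty hBn fun v hv => ?_
      have h3 := (mem_filter.1 hv).2
      have h4 : C ⊆ (C.filter fun u => G.Adj v u) ∪ (cand G C v p ∪ {v}) := by
        intro u hu
        by_cases h5 : G.Adj v u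
        · exact mem_union_left _ (mem_filter.2 ⟨hu, h5⟩)
        · refine mem_union_right _ ?_
          by_cases h6 : u = v
          · exact mem_union_right _ (mem_singleton.2 h6)
          · exact mem_union_left _ (mem_filter.2 ⟨hu, h6, iff_of_false h5 hp⟩)
      have h5 : C.card ≤ (C.filter fun u => G.Adj v u).card + ((cand G C v p).card + 1) := by
        refine (card_le_card h4).trans ((card_union_le _ _).trans ?_)
        refine Nat.add_le_add_left ((card_union_le _ _).trans ?_) _
        rw [card_singleton]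
      have h6 : (C.card : ℝ) ≤ (C.filter fun u => G.Adj v u).card +
          ((cand G C v p).card + 1) := by exact_mod_cast h5
      have h7 : θ * (C.card : ℝ) ≤ 1 / 8 * C.card :=
        mul_le_mul_of_nonneg_right hθ1 (Nat.cast_nonneg _)
      linarith
    rw [sum_const, nsmul_eq_mul] at h2
    nlinarith

/-- the embeddings of `F[J]` with `φ j ∈ C j` (and `φ j = v₀` for the other indices) -/
noncomputable def embs {k : ℕ} (G : SimpleGraph V) (F : SimpleGraph (Fin k)) (v₀ : V)
    (J : Finset (Fin k)) (C : Fin k → Finset V) : Finset (Fin k → V) := by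
  classical
  exact univ.filter fun φ => (∀ j, j ∉ J → φ j = v₀) ∧ (∀ j ∈ J, φ j ∈ C j) ∧
    ∀ i ∈ J, ∀ j ∈ J, i ≠ j → φ i ≠ φ j ∧ (G.Adj (φ i) (φ j) ↔ F.Adj i j)

theorem mem_embs {k : ℕ} (G : SimpleGraph V) (F : SimpleGraph (Fin k)) (v₀ : V)
    (J : Finset (Fin k)) (C : Fin k → Finset V) (φ : Fin k → V) :
    φ ∈ embs G F v₀ J C ↔ (∀ j, j ∉ J → φ j = v₀) ∧ (∀ j ∈ J, φ j ∈ C j) ∧
      ∀ i ∈ J, ∀ j ∈ J, i ≠ j → φ i ≠ φ j ∧ (G.Adj (φ i) (φ j) ↔ F.Adj i j) := by
  classical
  unfold embs
  simp

/-- **Greedy embedding.** -/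
theorem embed {k : ℕ} (G : SimpleGraph V) [DecidableRel G.Adj]
    (F : SimpleGraph (Fin k)) [DecidableRel F.Adj] (W : Fin k → Finset V) (θ m : ℝ) (hθ0 : 0 < θ)
    (hθ1 : θ ≤ 1 / 8) (hm : 8 ≤ m)
    (hadj : ∀ i j, F.Adj i j → ∀ A ⊆ W i, ∀ B ⊆ W j, m ≤ (A.card : ℝ) → m ≤ (B.card : ℝ) →
      θ * (A.card * B.card) ≤ ed G A B)
    (hnon : ∀ A B : Finset V, m ≤ (A.card : ℝ) → m ≤ (B.card : ℝ) →
      ed G A B ≤ 3 / 4 * (A.card * B.card)) (v₀ : V) (J : Finset (Fin k)) :
    ∀ C : Fin k → Finset V, (∀ j ∈ J, C j ⊆ W j) →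
      (∀ j ∈ J, m * k * (θ⁻¹) ^ J.card ≤ ((C j).card : ℝ)) →
      m ^ J.card ≤ ((embs G F v₀ J C).card : ℝ) := by
  have hθi : 1 ≤ θ⁻¹ := by
    rw [one_le_inv₀ hθ0]
    linarith
  induction J using Finset.induction_on with
  | empty =>
    intro C _ _
    have h1 : (fun _ => v₀) ∈ embs G F v₀ ∅ C :=
      (mem_embs G F v₀ ∅ C _).2 ⟨fun _ _ => rfl, fun j hj => absurd hj (notMem_empty j),
        fun i hi => absurd hi (notMem_empty i)⟩
    have h2 : 0 < (embs G F v₀ ∅ C).card := card_pos.2 ⟨_, h1⟩
    rw [card_empty, pow_zero]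
    exact_mod_cast h2
  | insert j₀ J hj₀ ih =>
    intro C hCW hCc
    have hk : (J.card : ℝ) + 1 ≤ k := by
      have h1 : (insert j₀ J).card ≤ k := by
        simpa using card_le_univ (insert j₀ J)
      rw [card_insert_of_notMem hj₀] at h1
      exact_mod_cast h1
    have hk1 : (1 : ℝ) ≤ k := by
      have := Nat.cast_nonneg (α := ℝ) J.card
      linarith
    rw [card_insert_of_notMem hj₀] at hCc ⊢
    have hbig : ∀ j ∈ insert j₀ J, m * k ≤ ((C j).card : ℝ) := by
      intro j hj
      refine le_trans ?_ (hCc j hj)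
      have h1 : 1 ≤ θ⁻¹ ^ (J.card + 1) := one_le_pow₀ hθi
      have h2 : 0 ≤ m * k := by positivity
      nlinarith
    have hbig' : ∀ j ∈ insert j₀ J, m ≤ ((C j).card : ℝ) := by
      intro j hj
      refine le_trans ?_ (hbig j hj)
      nlinarith
    -- the bad vertices
    set bad : Fin k → Finset V := fun j =>
      (C j₀).filter fun v => ((cand G (C j) v (F.Adj j₀ j)).card : ℝ) < θ * (C j).card with hbad
    have hb : ∀ j ∈ J, ((bad j).card : ℝ) ≤ m := by
      intro j hj
      refine (bad_small G θ m hθ0 hθ1 hm (F.Adj j₀ j) (C j₀) (C j)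
        (hbig' j (mem_insert_of_mem hj)) (fun hp A' hA' hA'm => ?_) (fun A' hA'm => ?_)).le
      · exact hadj j₀ j hp A' (hA'.trans (hCW j₀ (mem_insert_self _ _))) (C j)
          (hCW j (mem_insert_of_mem hj)) hA'm (hbig' j (mem_insert_of_mem hj))
      · exact hnon A' (C j) hA'm (hbig' j (mem_insert_of_mem hj))
    have hbt : ((J.biUnion bad).card : ℝ) ≤ J.card * m := by
      have h1 : ((J.biUnion bad).card : ℝ) ≤ ∑ j ∈ J, ((bad j).card : ℝ) := by
        exact_mod_cast card_biUnion_le
      have h2 : ∑ j ∈ J, ((bad j).card : ℝ) ≤ J.card * m := by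
        rw [← nsmul_eq_mul]
        exact sum_le_card_nsmul _ _ _ hb
      exact h1.trans h2
    set good := C j₀ \ J.biUnion bad with hgood
    have hgc : m ≤ (good.card : ℝ) := by
      have h1 : (C j₀).card ≤ good.card + (J.biUnion bad).card := by
        exact card_le_card_sdiff_add_card (t := J.biUnion bad) (s := C j₀)
      have h2 : ((C j₀).card : ℝ) ≤ good.card + (J.biUnion bad).card := by exact_mod_cast h1
      have h3 := hbig j₀ (mem_insert_self _ _)
      have h4 : (J.card : ℝ) * m + m ≤ m * k := by nlinarith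
      linarith
    have hihv : ∀ v ∈ good, m ^ J.card ≤
        ((embs G F v₀ J fun j => cand G (C j) v (F.Adj j₀ j)).card : ℝ) := by
      intro v hv
      obtain ⟨hv1, hvb⟩ := mem_sdiff.1 hv
      refine ih (fun j => cand G (C j) v (F.Adj j₀ j))
        (fun j hj => (filter_subset _ _).trans (hCW j (mem_insert_of_mem hj))) (fun j hj => ?_)
      have h1 : v ∉ bad j := fun h => hvb (mem_biUnion.2 ⟨j, hj, h⟩)
      have h2 : θ * ((C j).card : ℝ) ≤ (cand G (C j) v (F.Adj j₀ j)).card := by
        by_contra h3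
        push Not at h3
        exact h1 (mem_filter.2 ⟨hv1, h3⟩)
      refine le_trans ?_ h2
      have h3 := mul_le_mul_of_nonneg_left (hCc j (mem_insert_of_mem hj)) hθ0.le
      refine le_trans (le_of_eq ?_) h3
      rw [pow_succ]
      field_simp
    have hne : ∀ j ∈ J, j ≠ j₀ := fun j hj h => hj₀ (h ▸ hj)
    -- the extension map
    have hmap : ((good.sigma fun v => embs G F v₀ J fun j => cand G (C j) v (F.Adj j₀ j)).card)
        ≤ (embs G F v₀ (insert j₀ J) C).card := by
      refine card_le_card_of_injOn (fun p => Function.update p.2 j₀ p.1) (fun p hp => ?_)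
        (fun p hp p' hp' hpp => ?_)
      · obtain ⟨hv, hφ⟩ := mem_sigma.1 (mem_coe.1 hp)
        obtain ⟨v, φ⟩ := p
        simp only at hv hφ ⊢
        obtain ⟨hφ0, hφ1, hφ2⟩ := (mem_embs _ _ _ _ _ _).1 hφ
        have hmem : ∀ j ∈ J, φ j ∈ C j ∧ φ j ≠ v ∧ (G.Adj v (φ j) ↔ F.Adj j₀ j) := fun j hj =>
          mem_filter.1 (hφ1 j hj)
        refine mem_coe.2 ((mem_embs _ _ _ _ _ _).2 ⟨fun j hj => ?_, fun j hj => ?_,
          fun i hi j hj hij => ?_⟩)
        · rw [mem_insert, not_or] at hj
          rw [Function.update_of_ne hj.1]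
          exact hφ0 j hj.2
        · rcases mem_insert.1 hj with h | h
          · subst h
            rw [Function.update_self]
            exact (mem_sdiff.1 hv).1
          · rw [Function.update_of_ne (hne _ h)]
            exact (hmem j h).1
        · rcases mem_insert.1 hi with h | h
          · subst h
            rcases mem_insert.1 hj with h' | h'
            · exact absurd h'.symm hij
            · rw [Function.update_self, Function.update_of_ne (hne _ h')]
              exact ⟨(hmem j h').2.1.symm, (hmem j h').2.2⟩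
          · rcases mem_insert.1 hj with h' | h'
            · subst h'
              rw [Function.update_self, Function.update_of_ne (hne _ h)]
              refine ⟨(hmem i h).2.1, ?_⟩
              rw [G.adj_comm, F.adj_comm]
              exact (hmem i h).2.2
            · rw [Function.update_of_ne (hne _ h), Function.update_of_ne (hne _ h')]
              exact hφ2 i h j h' hij
      · obtain ⟨v, φ⟩ := p
        obtain ⟨v', φ'⟩ := p'
        obtain ⟨hv, hφ⟩ := mem_sigma.1 (mem_coe.1 hp)
        obtain ⟨hv', hφ'⟩ := mem_sigma.1 (mem_coe.1 hp')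
        simp only at hv hφ hv' hφ' hpp
        have h1 : v = v' := by
          have := congrFun hpp j₀
          rwa [Function.update_self, Function.update_self] at this
        have h2 : φ = φ' := by
          funext j
          by_cases hj : j = j₀
          · rw [hj, ((mem_embs _ _ _ _ _ _).1 hφ).1 j₀ hj₀,
              ((mem_embs _ _ _ _ _ _).1 hφ').1 j₀ hj₀]
          · have := congrFun hpp j
            rwa [Function.update_of_ne hj, Function.update_of_ne hj] at this
        subst h1
        subst h2
        rfl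
    have hsum : (good.card : ℝ) * m ^ J.card ≤
        ((good.sigma fun v => embs G F v₀ J fun j => cand G (C j) v (F.Adj j₀ j)).card : ℝ) := by
      rw [card_sigma, Nat.cast_sum, ← nsmul_eq_mul]
      exact card_nsmul_le_sum _ _ _ hihv
    have h5 : m ^ (J.card + 1) ≤ (good.card : ℝ) * m ^ J.card := by
      rw [pow_succ, mul_comm]
      exact mul_le_mul_of_nonneg_right hgc (by positivity)
    exact h5.trans (hsum.trans (by exact_mod_cast hmap))

end Pool.Agent.Helper18.UN
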