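import Pool.Agent.Helper18.UN.Embed

/-!
# A regular triple from a dense 3-graph without four edges on seven vertices
-/

set_option autoImplicit false

namespace Pool.Agent.Helper18.UN

open Finset SimpleGraph

/-- the shadow graph -/
def shadow {n : ℕ} (H : Finset (Finset (Fin n))) : SimpleGraph (Fin n) where
  Adj x y := x ≠ y ∧ ∃ e ∈ H, x ∈ e ∧ y ∈ e
  symm.symm _ _ h := ⟨h.1.symm, h.2.imp fun _ he => ⟨he.1, he.2.2, he.2.1⟩⟩
  loopless.irrefl _ h := h.1 rfl

instance {n : ℕ} (H : Finset (Finset (Fin n))) : DecidableRel (shadow H).Adj := fun x y =>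
  inferInstanceAs (Decidable (x ≠ y ∧ ∃ e ∈ H, x ∈ e ∧ y ∈ e))

/-- at most three edges contain a given pair -/
theorem codeg {n : ℕ} (hn : 7 ≤ n) (H : Finset (Finset (Fin n))) (h3 : ∀ e ∈ H, e.card = 3)
    (h7 : ∀ S : Finset (Fin n), S.card = 7 → (H.filter (fun e => e ⊆ S)).card < 4)
    (x y : Fin n) (hxy : x ≠ y) : (H.filter fun e => x ∈ e ∧ y ∈ e).card ≤ 3 := by
  by_contra hcon
  push Not at hcon
  obtain ⟨T, hT, hTc⟩ := exists_subset_card_eq (show 4 ≤ (H.filter fun e => x ∈ e ∧ y ∈ e).card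
    from hcon)
  have h1 : (T.biUnion id).card ≤ 6 := by
    have h2 : T.biUnion id ⊆ {x, y} ∪ T.biUnion fun e => e \ {x, y} := by
      intro z hz
      obtain ⟨e, he, hze⟩ := mem_biUnion.1 hz
      by_cases hz' : z ∈ ({x, y} : Finset (Fin n))
      · exact mem_union_left _ hz'
      · exact mem_union_right _ (mem_biUnion.2 ⟨e, he, mem_sdiff.2 ⟨hze, hz'⟩⟩)
    have h3' : (T.biUnion fun e => e \ {x, y}).card ≤ T.card * 1 := by
      refine card_biUnion_le_card_mul _ _ _ fun e he => ?_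
      obtain ⟨heH, hex, hey⟩ := mem_filter.1 (hT he)
      have h4 : ({x, y} : Finset (Fin n)) ⊆ e := by
        intro z hz
        rcases mem_insert.1 hz with h | h
        · rw [h]; exact hex
        · rw [mem_singleton.1 h]; exact hey
      rw [card_sdiff_of_subset h4, h3 e heH, card_pair hxy]
    have h5 := (card_le_card h2).trans (card_union_le _ _)
    rw [card_pair hxy] at h5
    omega
  obtain ⟨S, hS, hSc⟩ := exists_superset_card_eq (show (T.biUnion id).card ≤ 7 by omega)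
    (show 7 ≤ Fintype.card (Fin n) by simpa using hn)
  have h2 := h7 S hSc
  have h4 : T ⊆ H.filter fun e => e ⊆ S := by
    intro e he
    refine mem_filter.2 ⟨(mem_filter.1 (hT he)).1, ?_⟩
    exact (subset_biUnion_of_mem id he).trans hS
  have h5 := card_le_card h4
  omega

theorem exists_triple {n : ℕ} (hn : 7 ≤ n) (H : Finset (Finset (Fin n)))
    (h3 : ∀ e ∈ H, e.card = 3)
    (h7 : ∀ S : Finset (Fin n), S.card = 7 → (H.filter (fun e => e ⊆ S)).card < 4)
    (P : Finpartition (univ : Finset (Fin n))) (hP : P.IsEquipartition) (e₁ e₂ : ℝ)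
    (he₂ : 0 < e₂) (he : e₂ ≤ e₁) (hPu : P.IsUniform (shadow H) (e₂ / 8))
    (hl : 4 / e₂ ≤ (P.parts.card : ℝ)) (hc : 6 * e₁ * (n : ℝ) ^ 2 ≤ (H.card : ℝ)) :
    ∃ x : Fin 3 → Fin n, ∀ i j, i ≠ j →
      ((shadow H).regularityReduced P (e₁ / 8) (e₁ / 4)).Adj (x i) (x j) ∧
      ((shadow H).regularityReduced P (e₂ / 8) (e₂ / 4)).Adj (x i) (x j) := by
  classical
  set G := shadow H with hG
  set R₁ := G.regularityReduced P (e₁ / 8) (e₁ / 4) with hR₁
  set R₂ := G.regularityReduced P (e₂ / 8) (e₂ / 4) with hR₂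
  have he₁ : 0 < e₁ := by linarith
  have : Nonempty (Fin n) := ⟨⟨0, by omega⟩⟩
  have k₁ := regularityReduced_edges_card_aux (G := G) he₁ hP (hPu.mono (by linarith))
    ((div_le_div_of_nonneg_left (by norm_num) he₂ he).trans hl)
  have k₂ := regularityReduced_edges_card_aux (G := G) he₂ hP hPu hl
  rw [Fintype.card_fin] at k₁ k₂
  push_cast at k₁ k₂
  set K := (G.edgeFinset \ R₁.edgeFinset) ∪ (G.edgeFinset \ R₂.edgeFinset) with hK
  have s₁ : R₁.edgeFinset ⊆ G.edgeFinset := edgeFinset_mono regularityReduced_le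
  have s₂ : R₂.edgeFinset ⊆ G.edgeFinset := edgeFinset_mono regularityReduced_le
  have hKc : (K.card : ℝ) < 2 * e₁ * (n : ℝ) ^ 2 := by
    have h1 : (K.card : ℝ) ≤ ((G.edgeFinset \ R₁.edgeFinset).card : ℝ) +
        ((G.edgeFinset \ R₂.edgeFinset).card : ℝ) := by
      exact_mod_cast card_union_le _ _
    rw [cast_card_sdiff s₁, cast_card_sdiff s₂] at h1
    have h2 : e₂ * (n : ℝ) ^ 2 ≤ e₁ * (n : ℝ) ^ 2 := mul_le_mul_of_nonneg_right he (by positivity)
    linarith
  obtain ⟨e, heH, hgood⟩ : ∃ e ∈ H, ∀ x ∈ e, ∀ y ∈ e, x ≠ y → s(x, y) ∉ K := by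
    by_contra hcon
    push Not at hcon
    choose! f hf g hg hfg hfK using hcon
    have h1 : H.card ≤ 3 * (H.image fun e => s(f e, g e)).card := by
      refine card_le_mul_card_image _ _ fun b hb => ?_
      obtain ⟨e, he, rfl⟩ := mem_image.1 hb
      refine (card_le_card ?_).trans (codeg hn H h3 h7 (f e) (g e) (hfg e he))
      intro e' he'
      obtain ⟨h1, h2⟩ := mem_filter.1 he'
      refine mem_filter.2 ⟨h1, ?_⟩
      rcases Sym2.eq_iff.1 h2 with h | h
      · rw [← h.1, ← h.2]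
        exact ⟨hf e' h1, hg e' h1⟩
      · rw [← h.1, ← h.2]
        exact ⟨hg e' h1, hf e' h1⟩
    have h2 : (H.image fun e => s(f e, g e)).card ≤ K.card := by
      refine card_le_card fun b hb => ?_
      obtain ⟨e, he, rfl⟩ := mem_image.1 hb
      exact hfK e he
    have h4 : (H.card : ℝ) ≤ 3 * K.card := by exact_mod_cast h1.trans (Nat.mul_le_mul_left 3 h2)
    linarith
  obtain ⟨a, b, c, hab, hac, hbc, habc⟩ := card_eq_three.1 (h3 e heH)
  have key : ∀ x ∈ e, ∀ y ∈ e, x ≠ y → R₁.Adj x y ∧ R₂.Adj x y := by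
    intro x hx y hy hxy
    have h1 := hgood x hx y hy hxy
    have h2 : s(x, y) ∈ G.edgeFinset := by
      rw [mem_edgeFinset, mem_edgeSet]
      exact ⟨hxy, e, heH, hx, hy⟩
    rw [hK, mem_union, not_or, mem_sdiff, mem_sdiff, not_and, not_and, not_not, not_not] at h1
    have h4 := h1.1 h2
    have h5 := h1.2 h2
    rw [mem_edgeFinset, mem_edgeSet] at h4 h5
    exact ⟨h4, h5⟩
  have ha : a ∈ e := by rw [habc]; simp
  have hb : b ∈ e := by rw [habc]; simp
  have hc' : c ∈ e := by rw [habc]; simp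
  have k1 := key a ha b hb hab
  have k2 := key a ha c hc' hac
  have k3 := key b hb c hc' hbc
  have k4 := key b hb a ha hab.symm
  have k5 := key c hc' a ha hac.symm
  have k6 := key c hc' b hb hbc.symm
  refine ⟨![a, b, c], fun i j hij => ?_⟩
  fin_cases i <;> fin_cases j
  · exact absurd rfl hij
  · exact k1
  · exact k2
  · exact k4
  · exact absurd rfl hij
  · exact k3
  · exact k5
  · exact k6
  · exact absurd rfl hij

end Pool.Agent.Helper18.UN
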