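import Pool.Agent.Helper18.HD.Fin
import Pool.Agent.Helper18.UN.Trip

/-!
# Half density for `r`-graphs without four edges on `4 r - 5` vertices

Reduction to `r = 3`: a random partition of the vertices in `L` classes; an edge with one vertex in
`U_i` and one in `W_j` is replaced by three of its vertices, among them these two.
-/

set_option autoImplicit false

namespace Pool.Agent.Helper18.UN

open Finset

theorem card_col (n L : ℕ) (u z : Fin n) (h : u ≠ z) :
    (univ.filter fun cl : Fin n → Fin L => cl z = cl u).card * L = L ^ n := by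
  have h1 : ((univ.filter fun cl : Fin n → Fin L => cl z = cl u) ×ˢ
      (univ : Finset (Fin L))).card = (univ : Finset (Fin n → Fin L)).card := by
    refine card_bij' (fun p _ => Function.update p.1 z p.2)
      (fun g _ => (Function.update g z (g u), g z)) (fun p _ => mem_univ _) (fun g _ => ?_)
      (fun p hp => ?_) (fun g _ => ?_)
    · refine mem_product.2 ⟨mem_filter.2 ⟨mem_univ _, ?_⟩, mem_univ _⟩
      simp only
      rw [Function.update_self, Function.update_of_ne h]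
    · obtain ⟨hp1, -⟩ := mem_product.1 hp
      have hp2 := (mem_filter.1 hp1).2
      obtain ⟨f, a⟩ := p
      simp only at hp2 ⊢
      rw [Function.update_self, Function.update_of_ne h, Function.update_idem, ← hp2,
        Function.update_eq_self]
    · simp only
      rw [Function.update_idem, Function.update_eq_self]
  rw [card_product, card_univ, Fintype.card_fin, card_univ] at h1
  rw [h1]
  simp

/-- a good partition -/
theorem exists_col {n L : ℕ} (hL : 0 < L) (r : ℕ) (Q : Finset (Fin n × Fin n))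
    (hh : Fin n × Fin n → Finset (Fin n)) (hr : ∀ q ∈ Q, (hh q).card = r) :
    ∃ cl : Fin n → Fin L,
      ((Q.filter fun q => ∃ z ∈ hh q, (z ≠ q.1 ∧ cl z = cl q.1) ∨ (z ≠ q.2 ∧ cl z = cl q.2)).card : ℝ)
        ≤ 2 * r * (n : ℝ) ^ 2 / L := by
  classical
  by_contra hcon
  push Not at hcon
  have hL' : (0 : ℝ) < L := by exact_mod_cast hL
  set bad : (Fin n → Fin L) → Finset (Fin n × Fin n) := fun cl =>
    Q.filter fun q => ∃ z ∈ hh q, (z ≠ q.1 ∧ cl z = cl q.1) ∨ (z ≠ q.2 ∧ cl z = cl q.2) with hbad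
  have hone : ∀ u z : Fin n, z ≠ u →
      ((univ.filter fun cl : Fin n → Fin L => cl z = cl u).card : ℝ) = (L : ℝ) ^ n / L := by
    intro u z hz
    rw [eq_div_iff hL'.ne']
    exact_mod_cast card_col n L u z hz.symm
  -- upper bound for the sum
  have h1 : ∑ cl, ((bad cl).card : ℝ) ≤ (n : ℝ) ^ 2 * (2 * r * ((L : ℝ) ^ n / L)) := by
    have h2 : ∑ cl, ((bad cl).card : ℝ) = ∑ q ∈ Q, ((univ.filter fun cl : Fin n → Fin L =>
        ∃ z ∈ hh q, (z ≠ q.1 ∧ cl z = cl q.1) ∨ (z ≠ q.2 ∧ cl z = cl q.2)).card : ℝ) := by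
      simp only [hbad, card_filter, Nat.cast_sum]
      exact sum_comm
    rw [h2]
    have h3 : ∀ q ∈ Q, ((univ.filter fun cl : Fin n → Fin L =>
        ∃ z ∈ hh q, (z ≠ q.1 ∧ cl z = cl q.1) ∨ (z ≠ q.2 ∧ cl z = cl q.2)).card : ℝ) ≤
        2 * r * ((L : ℝ) ^ n / L) := by
      intro q hq
      have h4 : (univ.filter fun cl : Fin n → Fin L =>
          ∃ z ∈ hh q, (z ≠ q.1 ∧ cl z = cl q.1) ∨ (z ≠ q.2 ∧ cl z = cl q.2)) ⊆
          (hh q).biUnion fun z =>
            (univ.filter fun cl : Fin n → Fin L => z ≠ q.1 ∧ cl z = cl q.1) ∪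
            (univ.filter fun cl : Fin n → Fin L => z ≠ q.2 ∧ cl z = cl q.2) := by
        intro cl hcl
        obtain ⟨z, hz, h5⟩ := (mem_filter.1 hcl).2
        refine mem_biUnion.2 ⟨z, hz, ?_⟩
        rcases h5 with h5 | h5
        · exact mem_union_left _ (mem_filter.2 ⟨mem_univ _, h5⟩)
        · exact mem_union_right _ (mem_filter.2 ⟨mem_univ _, h5⟩)
      have h5 : ∀ (u z : Fin n), ((univ.filter fun cl : Fin n → Fin L => z ≠ u ∧ cl z = cl u).card : ℝ)
          ≤ (L : ℝ) ^ n / L := by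
        intro u z
        by_cases hz : z = u
        · have : (univ.filter fun cl : Fin n → Fin L => z ≠ u ∧ cl z = cl u) = ∅ := by
            rw [filter_eq_empty_iff]
            intro cl _ h6
            exact h6.1 hz
          rw [this, card_empty]
          push_cast
          positivity
        · rw [← hone u z hz]
          have h6 : (univ.filter fun cl : Fin n → Fin L => z ≠ u ∧ cl z = cl u) ⊆
              (univ.filter fun cl : Fin n → Fin L => cl z = cl u) := by
            intro cl hcl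
            exact mem_filter.2 ⟨mem_univ _, (mem_filter.1 hcl).2.2⟩
          exact_mod_cast card_le_card h6
      calc ((univ.filter fun cl : Fin n → Fin L =>
            ∃ z ∈ hh q, (z ≠ q.1 ∧ cl z = cl q.1) ∨ (z ≠ q.2 ∧ cl z = cl q.2)).card : ℝ)
          ≤ ∑ z ∈ hh q, ((((univ.filter fun cl : Fin n → Fin L => z ≠ q.1 ∧ cl z = cl q.1) ∪
            (univ.filter fun cl : Fin n → Fin L => z ≠ q.2 ∧ cl z = cl q.2)).card : ℕ) : ℝ) := by
            exact_mod_cast (card_le_card h4).trans card_biUnion_le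
        _ ≤ ∑ _z ∈ hh q, 2 * ((L : ℝ) ^ n / L) := by
            refine sum_le_sum fun z _ => ?_
            have h6 : (((univ.filter fun cl : Fin n → Fin L => z ≠ q.1 ∧ cl z = cl q.1) ∪
                (univ.filter fun cl : Fin n → Fin L => z ≠ q.2 ∧ cl z = cl q.2)).card : ℝ) ≤
                (univ.filter fun cl : Fin n → Fin L => z ≠ q.1 ∧ cl z = cl q.1).card +
                (univ.filter fun cl : Fin n → Fin L => z ≠ q.2 ∧ cl z = cl q.2).card := by
              exact_mod_cast card_union_le _ _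
            have h7 := h5 q.1 z
            have h8 := h5 q.2 z
            linarith
        _ = 2 * r * ((L : ℝ) ^ n / L) := by
            rw [sum_const, hr q hq, nsmul_eq_mul]
            ring
    have h4 : (Q.card : ℝ) ≤ (n : ℝ) ^ 2 := by
      have h5 : Q.card ≤ n * n := by
        have := card_le_univ Q
        simpa using this
      rw [sq]
      exact_mod_cast h5
    calc ∑ q ∈ Q, ((univ.filter fun cl : Fin n → Fin L =>
            ∃ z ∈ hh q, (z ≠ q.1 ∧ cl z = cl q.1) ∨ (z ≠ q.2 ∧ cl z = cl q.2)).card : ℝ)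
        ≤ Q.card • (2 * r * ((L : ℝ) ^ n / L)) := sum_le_card_nsmul _ _ _ h3
      _ = Q.card * (2 * r * ((L : ℝ) ^ n / L)) := by rw [nsmul_eq_mul]
      _ ≤ _ := mul_le_mul_of_nonneg_right h4 (by positivity)
  -- lower bound
  have h2 : (Fintype.card (Fin n → Fin L) : ℝ) * (2 * r * (n : ℝ) ^ 2 / L) <
      ∑ cl, ((bad cl).card : ℝ) := by
    have hne : (univ : Finset (Fin n → Fin L)).Nonempty := ⟨fun _ => ⟨0, hL⟩, mem_univ _⟩
    have h3 : ∑ _cl : Fin n → Fin L, (2 * r * (n : ℝ) ^ 2 / L) < ∑ cl, ((bad cl).card : ℝ) :=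
      sum_lt_sum_of_nonempty hne fun cl _ => hcon cl
    rw [sum_const, card_univ, nsmul_eq_mul] at h3
    exact h3
  have h3 : (Fintype.card (Fin n → Fin L) : ℝ) = (L : ℝ) ^ n := by simp
  rw [h3] at h2
  have h4 : (L : ℝ) ^ n * (2 * r * (n : ℝ) ^ 2 / L) = (n : ℝ) ^ 2 * (2 * r * ((L : ℝ) ^ n / L)) := by
    ring
  linarith

/-- no four edges on at most `4 r - 5` vertices -/
def Four {n : ℕ} (H : Finset (Finset (Fin n))) (r : ℕ) : Prop :=
  ∀ S ⊆ H, S.card = 4 → (r - 2) * 4 + 3 < (S.biUnion id).card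

/-- replacing edges by triples -/
theorem triples_seven {n r : ℕ} (hr : 3 ≤ r) (H H' : Finset (Finset (Fin n)))
    (hu : ∀ A ∈ H, A.card = r) (hF : Four H r) (hH' : H' ⊆ H)
    (T : Finset (Fin n) → Finset (Fin n)) (hT : ∀ A ∈ H', T A ⊆ A ∧ (T A).card = 3)
    (S : Finset (Fin n)) (hS : S.card = 7) :
    ((H'.image T).filter (fun e => e ⊆ S)).card < 4 := by
  by_contra hcon
  push Not at hcon
  obtain ⟨Q, hQ, hQc⟩ := exists_subset_card_eq hcon
  have h1 : ∀ t ∈ Q, ∃ A ∈ H', T A = t := fun t ht =>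
    mem_image.1 (mem_filter.1 (hQ ht)).1
  choose! g hg hgT using h1
  have hinj : Set.InjOn g Q := by
    intro t ht t' ht' h
    rw [← hgT t ht, ← hgT t' ht', h]
  have hc : (Q.image g).card = 4 := by rw [card_image_of_injOn hinj, hQc]
  have hsub : Q.image g ⊆ H := by
    intro A hA
    obtain ⟨t, ht, rfl⟩ := mem_image.1 hA
    exact hH' (hg t ht)
  have h2 := hF _ hsub hc
  have h3 : (Q.image g).biUnion id ⊆ S ∪ Q.biUnion fun t => g t \ T (g t) := by
    intro x hx
    obtain ⟨A, hA, hxA⟩ := mem_biUnion.1 hx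
    obtain ⟨t, ht, rfl⟩ := mem_image.1 hA
    by_cases hxT : x ∈ T (g t)
    · refine mem_union_left _ ((mem_filter.1 (hQ ht)).2 ?_)
      rwa [hgT t ht] at hxT
    · exact mem_union_right _ (mem_biUnion.2 ⟨t, ht, mem_sdiff.2 ⟨hxA, hxT⟩⟩)
  have h4 : (Q.biUnion fun t => g t \ T (g t)).card ≤ Q.card * (r - 3) := by
    refine card_biUnion_le_card_mul _ _ _ fun t ht => ?_
    obtain ⟨h5, h6⟩ := hT (g t) (hg t ht)
    rw [card_sdiff_of_subset h5, h6, hu _ (hH' (hg t ht))]
  have h5 := (card_le_card h3).trans (card_union_le _ _)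
  rw [hS] at h5
  rw [hQc] at h4
  omega

/-- **Half density** for `r`-graphs without four edges on `4 r - 5` vertices. -/
theorem half_r (r : ℕ) (hr : 3 ≤ r) (ε : ℝ) (hε : 0 < ε) : ∃ N : ℕ, ∀ n : ℕ, N ≤ n →
    ∀ H : Finset (Finset (Fin n)), (∀ A ∈ H, A.card = r) → Four H r →
      ∀ U W : Finset (Fin n),
        (((U ×ˢ W).filter (fun q => q.1 ≠ q.2 ∧ ∃ e ∈ H, q.1 ∈ e ∧ q.2 ∈ e)).card : ℝ) ≤
          (1 / 2) * ((U.card : ℝ) * (W.card : ℝ)) + ε * (n : ℝ) ^ 2 := by
  classical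
  obtain ⟨L, hL⟩ := exists_nat_gt (4 * r / ε)
  have hr0 : (0 : ℝ) < r := by
    have : 0 < r := by omega
    exact_mod_cast this
  have hL0 : (0 : ℝ) < L := lt_trans (by positivity) hL
  have hL0' : 0 < L := by exact_mod_cast hL0
  obtain ⟨N, hN⟩ := Pool.Agent.Helper18.HD.half_density (ε / (2 * L ^ 2)) (by positivity)
  refine ⟨N, fun n hn H hu hF U W => ?_⟩
  set Q := (U ×ˢ W).filter (fun q => q.1 ≠ q.2 ∧ ∃ e ∈ H, q.1 ∈ e ∧ q.2 ∈ e) with hQ
  have hch : ∀ q ∈ Q, ∃ e ∈ H, q.1 ∈ e ∧ q.2 ∈ e := fun q hq => (mem_filter.1 hq).2.2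
  choose! hh hhH hh1 hh2 using hch
  obtain ⟨cl, hcl⟩ := exists_col (L := L) hL0' r Q hh (fun q hq => hu _ (hhH q hq))
  set B := Q.filter fun q => ∃ z ∈ hh q, (z ≠ q.1 ∧ cl z = cl q.1) ∨ (z ≠ q.2 ∧ cl z = cl q.2)
    with hB
  have hBc : (B.card : ℝ) ≤ ε / 2 * (n : ℝ) ^ 2 := by
    refine hcl.trans ?_
    rw [div_le_iff₀ hL0]
    rw [div_lt_iff₀ hε] at hL
    have : 0 ≤ (n : ℝ) ^ 2 := by positivity
    nlinarith
  -- the classes
  set Uc : Fin L → Finset (Fin n) := fun i => U.filter fun x => cl x = i with hUc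
  set Wc : Fin L → Finset (Fin n) := fun j => W.filter fun x => cl x = j with hWc
  have hU : ∑ i, ((Uc i).card : ℝ) = U.card := by
    rw [← Nat.cast_sum]
    congr 1
    exact (card_eq_sum_card_fiberwise (f := cl) (t := univ) (fun _ _ => mem_coe.2 (mem_univ _))).symm
  have hW : ∑ j, ((Wc j).card : ℝ) = W.card := by
    rw [← Nat.cast_sum]
    congr 1
    exact (card_eq_sum_card_fiberwise (f := cl) (t := univ) (fun _ _ => mem_coe.2 (mem_univ _))).symm
  -- one pair of classes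
  have hone : ∀ i j : Fin L,
      ((((Q \ B).filter fun q => cl q.1 = i ∧ cl q.2 = j)).card : ℝ) ≤
        (1 / 2) * ((Uc i).card * (Wc j).card) + ε / (2 * L ^ 2) * (n : ℝ) ^ 2 := by
    intro i j
    set H' := H.filter fun A => (A ∩ Uc i).card ≤ 1 ∧ (A ∩ Wc j).card ≤ 1 with hH'
    have hT : ∀ A ∈ H', ∃ T, (A ∩ Uc i) ∪ (A ∩ Wc j) ⊆ T ∧ T ⊆ A ∧ T.card = 3 := by
      intro A hA
      obtain ⟨hAH, h1, h2⟩ := mem_filter.1 hA
      refine exists_subsuperset_card_eq (union_subset inter_subset_left inter_subset_left) ?_ ?_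
      · exact (card_union_le _ _).trans (by omega)
      · rw [hu A hAH]; exact hr
    choose! T hT1 hT2 hT3 using hT
    have h1 := hN n hn (H'.image T) (fun t ht => by
        obtain ⟨A, hA, rfl⟩ := mem_image.1 ht
        exact hT3 A hA)
      (triples_seven hr H H' hu hF (filter_subset _ _) T (fun A hA => ⟨hT2 A hA, hT3 A hA⟩))
      (Uc i) (Wc j)
    refine le_trans ?_ h1
    exact_mod_cast card_le_card (fun q hq => by
      obtain ⟨hq1, hqi, hqj⟩ := mem_filter.1 hq
      obtain ⟨hqQ, hqB⟩ := mem_sdiff.1 hq1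
      obtain ⟨hqp, hqne, -⟩ := mem_filter.1 hqQ
      obtain ⟨hqU, hqW⟩ := mem_product.1 hqp
      have hgood : ∀ z ∈ hh q, (cl z = cl q.1 → z = q.1) ∧ (cl z = cl q.2 → z = q.2) := by
        intro z hz
        refine ⟨fun h2 => ?_, fun h2 => ?_⟩
        · by_contra h3
          exact hqB (mem_filter.2 ⟨hqQ, z, hz, Or.inl ⟨h3, h2⟩⟩)
        · by_contra h3
          exact hqB (mem_filter.2 ⟨hqQ, z, hz, Or.inr ⟨h3, h2⟩⟩)
      have hA : hh q ∈ H' := by
        refine mem_filter.2 ⟨hhH q hqQ, ?_, ?_⟩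
        · refine card_le_one.2 fun a ha b hb => ?_
          obtain ⟨ha1, ha2⟩ := mem_inter.1 ha
          obtain ⟨hb1, hb2⟩ := mem_inter.1 hb
          rw [(hgood a ha1).1 ((mem_filter.1 ha2).2.trans hqi.symm),
            (hgood b hb1).1 ((mem_filter.1 hb2).2.trans hqi.symm)]
        · refine card_le_one.2 fun a ha b hb => ?_
          obtain ⟨ha1, ha2⟩ := mem_inter.1 ha
          obtain ⟨hb1, hb2⟩ := mem_inter.1 hb
          rw [(hgood a ha1).2 ((mem_filter.1 ha2).2.trans hqj.symm),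
            (hgood b hb1).2 ((mem_filter.1 hb2).2.trans hqj.symm)]
      refine mem_filter.2 ⟨mem_product.2 ⟨mem_filter.2 ⟨hqU, hqi⟩, mem_filter.2 ⟨hqW, hqj⟩⟩,
        hqne, T (hh q), mem_image_of_mem _ hA, ?_, ?_⟩
      · exact hT1 _ hA (mem_union_left _ (mem_inter.2 ⟨hh1 q hqQ, mem_filter.2 ⟨hqU, hqi⟩⟩))
      · exact hT1 _ hA (mem_union_right _ (mem_inter.2 ⟨hh2 q hqQ, mem_filter.2 ⟨hqW, hqj⟩⟩)))
  -- the sum
  have hsum : ((Q \ B).card : ℝ) ≤ (1 / 2) * (U.card * W.card) + ε / 2 * (n : ℝ) ^ 2 := by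
    have h1 : ((Q \ B).card : ℝ) = ∑ p : Fin L × Fin L,
        (((Q \ B).filter fun q => cl q.1 = p.1 ∧ cl q.2 = p.2).card : ℝ) := by
      rw [← Nat.cast_sum]
      congr 1
      rw [card_eq_sum_card_fiberwise (f := fun q : Fin n × Fin n => (cl q.1, cl q.2)) (t := univ)
        (fun _ _ => mem_coe.2 (mem_univ _))]
      refine sum_congr rfl fun p _ => ?_
      congr 1
      refine filter_congr fun q _ => ?_
      rw [Prod.ext_iff]
    rw [h1]
    refine (sum_le_sum fun p _ => hone p.1 p.2).trans ?_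
    rw [sum_add_distrib, ← mul_sum, sum_const, card_univ, Fintype.card_prod, Fintype.card_fin,
      nsmul_eq_mul]
    have h2 : ∑ p : Fin L × Fin L, ((Uc p.1).card * (Wc p.2).card : ℝ) = U.card * W.card := by
      rw [← hU, ← hW, sum_mul_sum, Fintype.sum_prod_type]
    rw [h2]
    push_cast
    have h3 : (L : ℝ) * L * (ε / (2 * L ^ 2) * (n : ℝ) ^ 2) = ε / 2 * (n : ℝ) ^ 2 := by
      field_simp
    rw [h3]
  have hfin : (Q.card : ℝ) ≤ (Q \ B).card + B.card := by
    exact_mod_cast card_le_card_sdiff_add_card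
  linarith

end Pool.Agent.Helper18.UN
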