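import Pool.Agent.Helper18.UN.Trip
import Pool.Agent.Helper18.HD.Fin

/-!
# The shadow of a dense 3-graph without four edges on seven vertices contains every 3-colourable
graph as an induced subgraph
-/

set_option autoImplicit false

namespace Pool.Agent.Helper18.UN

open Finset SimpleGraph

theorem universal (ε : ℝ) (hε : 0 < ε) (k : ℕ) : ∃ c : ℝ, 0 < c ∧ ∃ N : ℕ, ∀ n : ℕ, N ≤ n →
    ∀ H : Finset (Finset (Fin n)), (∀ e ∈ H, e.card = 3) →
      (∀ S : Finset (Fin n), S.card = 7 → (H.filter (fun e => e ⊆ S)).card < 4) →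
      ε * (n : ℝ) ^ 2 ≤ (H.card : ℝ) →
      ∀ F : SimpleGraph (Fin k), F.Colorable 3 →
        c * (n : ℝ) ^ k ≤ (Nat.card {φ : Fin k → Fin n // Function.Injective φ ∧
          ∀ i j, i ≠ j → (F.Adj i j ↔ ∃ e ∈ H, φ i ∈ e ∧ φ j ∈ e)} : ℝ) := by
  classical
  -- parameters
  set e₁ : ℝ := min (ε / 6) 1 with he₁
  have he₁0 : 0 < e₁ := lt_min (by positivity) one_pos
  have he₁1 : e₁ ≤ 1 := min_le_right _ _
  have he₁ε : 6 * e₁ ≤ ε := by
    have := min_le_left (ε / 6) 1
    linarith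
  set θ : ℝ := e₁ / 8 with hθ
  have hθ0 : 0 < θ := by positivity
  have hθ1 : θ ≤ 1 / 8 := by linarith
  set e₂ : ℝ := min e₁ (4 * θ ^ k / (k + 1)) with he₂
  have he₂0 : 0 < e₂ := lt_min he₁0 (by positivity)
  have he₂1 : e₂ ≤ e₁ := min_le_left _ _
  have he₂k : e₂ * k ≤ 4 * θ ^ k := by
    have h1 : e₂ ≤ 4 * θ ^ k / (k + 1) := min_le_right _ _
    rw [le_div_iff₀ (by positivity)] at h1
    nlinarith
  set l : ℕ := ⌈4 / e₂⌉₊ with hl
  have hl' : 4 / e₂ ≤ l := Nat.le_ceil _
  set M : ℕ := SzemerediRegularity.bound (e₂ / 8) l with hM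
  have hM0 : (0 : ℝ) < M := by
    have : 0 < M := SzemerediRegularity.bound_pos _ _
    exact_mod_cast this
  set ε₂ : ℝ := (e₂ / 8 / M) ^ 2 / 4 with hε₂
  obtain ⟨N₁, hN₁⟩ := Pool.Agent.Helper18.HD.half_density ε₂ (by positivity)
  obtain ⟨N₂, hN₂⟩ := exists_nat_gt (64 * M / e₂)
  refine ⟨(e₂ / 8 / M) ^ k, by positivity, max N₁ (max N₂ (max l 7)),
    fun n hn H h3 h7 hc F hF => ?_⟩
  have hn1 : N₁ ≤ n := le_trans (le_max_left _ _) hn
  have hn2 : N₂ ≤ n := le_trans (le_trans (le_max_left _ _) (le_max_right _ _)) hn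
  have hn3 : l ≤ n := le_trans (le_trans (le_max_left _ _)
    (le_trans (le_max_right _ _) (le_max_right _ _))) hn
  have hn4 : 7 ≤ n := le_trans (le_trans (le_max_right _ _)
    (le_trans (le_max_right _ _) (le_max_right _ _))) hn
  have hn0 : (0 : ℝ) < n := by
    have : 0 < n := by omega
    exact_mod_cast this
  have hnM : 64 * M / e₂ < (n : ℝ) := lt_of_lt_of_le hN₂ (by exact_mod_cast hn2)
  set G := shadow H with hG
  -- the regular partition
  obtain ⟨P, hP1, hP2, hP3, hP4⟩ := szemeredi_regularity G (by positivity : 0 < e₂ / 8)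
    (show l ≤ Fintype.card (Fin n) by simpa using hn3)
  have hPl : 4 / e₂ ≤ (P.parts.card : ℝ) := hl'.trans (by exact_mod_cast hP2)
  obtain ⟨x, hx⟩ := exists_triple hn4 H h3 h7 P hP1 e₁ e₂ he₂0 he₂1 hP4 hPl
    (le_trans (mul_le_mul_of_nonneg_right he₁ε (by positivity)) hc)
  -- sizes of the parts
  set q : ℕ := Fintype.card (Fin n) / P.parts.card with hq
  have hPc : (0 : ℝ) < P.parts.card := by
    have h1 : 0 < 4 / e₂ := by positivity
    linarith
  have hPc' : 0 < P.parts.card := by exact_mod_cast hPc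
  have hq1 : (n : ℝ) / M < q + 1 := by
    have h1 : (n : ℝ) / P.parts.card < q + 1 := by
      rw [div_lt_iff₀ hPc]
      have h2 : n < (q + 1) * P.parts.card := by
        rw [hq, Fintype.card_fin]
        have h4 := Nat.div_add_mod n P.parts.card
        have h5 := Nat.mod_lt n hPc'
        nlinarith
      exact_mod_cast h2
    refine lt_of_le_of_lt ?_ h1
    exact div_le_div_of_nonneg_left hn0.le hPc (by exact_mod_cast hP3)
  have hlo : ∀ U ∈ P.parts, (q : ℝ) ≤ U.card := by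
    intro U hU
    have h1 := hP1.average_le_card_part hU
    rw [card_univ] at h1
    exact_mod_cast h1
  have hup : ∀ U ∈ P.parts, (U.card : ℝ) ≤ q + 1 := by
    intro U hU
    have h1 := hP1.card_part_le_average_add_one hU
    rw [card_univ] at h1
    exact_mod_cast h1
  have h64 : 64 / e₂ < (q : ℝ) + 1 := by
    refine lt_of_le_of_lt ?_ hq1
    rw [le_div_iff₀ hM0]
    rw [div_mul_eq_mul_div]
    exact hnM.le
  have hq0 : (1 : ℝ) ≤ q := by
    have h1 : (64 : ℝ) ≤ 64 / e₂ := by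
      rw [le_div_iff₀ he₂0]
      nlinarith
    linarith
  set m : ℝ := e₂ / 8 * (q + 1) with hm
  have hm8 : 8 ≤ m := by
    rw [hm]
    rw [div_lt_iff₀ he₂0] at h64
    linarith
  -- the colouring and the candidate sets
  obtain ⟨c⟩ := hF
  set W : Fin k → Finset (Fin n) := fun j => P.part (x (c j)) with hW
  have hWp : ∀ j, W j ∈ P.parts := fun j => P.part_mem.2 (mem_univ _)
  have hmn : e₂ / 8 / M * n ≤ m := by
    rw [hm, div_mul_eq_mul_div, mul_div_assoc]
    exact mul_le_mul_of_nonneg_left hq1.le (by positivity)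
  have hadj : ∀ i j, F.Adj i j → ∀ A ⊆ W i, ∀ B ⊆ W j, m ≤ (A.card : ℝ) → m ≤ (B.card : ℝ) →
      θ * (A.card * B.card) ≤ ed G A B := by
    intro i j hij A hA B hB hAm hBm
    have hcij : c i ≠ c j := c.valid hij
    obtain ⟨h1, h2⟩ := hx (c i) (c j) hcij
    obtain ⟨-, U, hU, U', hU', haU, hbU', -, -, hden⟩ := h1
    obtain ⟨-, Z, hZ, Z', hZ', haZ, hbZ', -, huni, -⟩ := h2
    have e1 : W i = U := P.part_eq_of_mem hU haU
    have e2 : W j = U' := P.part_eq_of_mem hU' hbU'
    have e3 : W i = Z := P.part_eq_of_mem hZ haZ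
    have e4 : W j = Z' := P.part_eq_of_mem hZ' hbZ'
    rw [← e3, ← e4] at huni
    rw [← e1, ← e2] at hden
    have h3' := huni hA hB (by
      refine le_trans ?_ hAm
      rw [hm, mul_comm]
      exact mul_le_mul_of_nonneg_left (hup _ (hWp i)) (by positivity)) (by
      refine le_trans ?_ hBm
      rw [hm, mul_comm]
      exact mul_le_mul_of_nonneg_left (hup _ (hWp j)) (by positivity))
    have h4 : θ ≤ ((G.edgeDensity A B : ℚ) : ℝ) := by
      rw [abs_lt] at h3'
      linarith [h3'.1]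
    have hAp : (0 : ℝ) < A.card := by linarith
    have hBp : (0 : ℝ) < B.card := by linarith
    have h5 : ed G A B = ((G.edgeDensity A B : ℚ) : ℝ) * (A.card * B.card) := by
      rw [edgeDensity_def]
      push_cast
      rw [div_mul_cancel₀ _ (by positivity)]
      rfl
    rw [h5]
    exact mul_le_mul_of_nonneg_right h4 (by positivity)
  have hnon : ∀ A B : Finset (Fin n), m ≤ (A.card : ℝ) → m ≤ (B.card : ℝ) →
      ed G A B ≤ 3 / 4 * (A.card * B.card) := by
    intro A B hA hB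
    have h1 := hN₁ n hn1 H h3 h7 A B
    have h2 : ed G A B = (((A ×ˢ B).filter
        (fun q => q.1 ≠ q.2 ∧ ∃ e ∈ H, q.1 ∈ e ∧ q.2 ∈ e)).card : ℝ) := rfl
    rw [← h2] at h1
    have h4 := hmn
    have h5 : 0 ≤ e₂ / 8 / M * n := by positivity
    have h6 : ε₂ * (n : ℝ) ^ 2 = (e₂ / 8 / M * n) * (e₂ / 8 / M * n) / 4 := by
      rw [hε₂]
      ring
    have h7' : (e₂ / 8 / M * n) * (e₂ / 8 / M * n) ≤ A.card * B.card :=
      mul_le_mul (h4.trans hA) (h4.trans hB) h5 (by positivity)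
    linarith
  have hemb := embed G F W θ m hθ0 hθ1 hm8 hadj hnon ⟨0, by omega⟩ univ W (fun j _ => subset_rfl)
    (fun j _ => by
      rw [card_univ, Fintype.card_fin]
      refine le_trans ?_ (hlo _ (hWp j))
      rw [hm, inv_pow]
      have h1 : e₂ / 8 * (q + 1) * k * (θ ^ k)⁻¹ ≤ (q + 1) / 2 := by
        rw [← div_eq_mul_inv, div_le_iff₀ (by positivity)]
        have h2 : (e₂ * k) * (q + 1) ≤ (4 * θ ^ k) * (q + 1) :=
          mul_le_mul_of_nonneg_right he₂k (by positivity)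
        linarith
      linarith)
  rw [card_univ, Fintype.card_fin] at hemb
  have h1 : (e₂ / 8 / M) ^ k * (n : ℝ) ^ k ≤ m ^ k := by
    rw [← mul_pow]
    exact pow_le_pow_left₀ (by positivity) hmn k
  refine h1.trans (hemb.trans ?_)
  have h2 : (embs G F (⟨0, by omega⟩ : Fin n) univ W).card ≤
      Nat.card {φ : Fin k → Fin n // Function.Injective φ ∧
          ∀ i j, i ≠ j → (F.Adj i j ↔ ∃ e ∈ H, φ i ∈ e ∧ φ j ∈ e)} := by
    rw [Nat.card_eq_fintype_card, Fintype.card_subtype]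
    refine card_le_card fun φ hφ => ?_
    obtain ⟨-, -, hφ⟩ := (mem_embs _ _ _ _ _ _).1 hφ
    refine mem_filter.2 ⟨mem_univ _, fun i j hij => ?_, fun i j hij => ?_⟩
    · by_contra h
      exact (hφ i (mem_univ _) j (mem_univ _) h).1 hij
    · obtain ⟨h1, h2⟩ := hφ i (mem_univ _) j (mem_univ _) hij
      rw [← h2]
      constructor
      · intro h
        exact h.2
      · intro h
        exact ⟨h1, h⟩
  exact_mod_cast h2

end Pool.Agent.Helper18.UN
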