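import Pool.Agent.Helper18.UN.HalfR

/-!
# The shadow of a dense `r`-graph without four edges on `4 r - 5` vertices contains every
`r`-colourable graph as an induced subgraph, with positive density
-/

set_option autoImplicit false

namespace Pool.Agent.Helper18.UN

open Finset SimpleGraph

/-- at most three edges contain a given pair -/
theorem codeg_r {n r : ℕ} (hr : 3 ≤ r) (H : Finset (Finset (Fin n))) (hu : ∀ e ∈ H, e.card = r)
    (hF : Four H r) (x y : Fin n) (hxy : x ≠ y) : (H.filter fun e => x ∈ e ∧ y ∈ e).card ≤ 3 := by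
  by_contra hcon
  push Not at hcon
  obtain ⟨T, hT, hTc⟩ := exists_subset_card_eq (show 4 ≤ (H.filter fun e => x ∈ e ∧ y ∈ e).card
    from hcon)
  have h2 : T.biUnion id ⊆ {x, y} ∪ T.biUnion fun e => e \ {x, y} := by
    intro z hz
    obtain ⟨e, he, hze⟩ := mem_biUnion.1 hz
    by_cases hz' : z ∈ ({x, y} : Finset (Fin n))
    · exact mem_union_left _ hz'
    · exact mem_union_right _ (mem_biUnion.2 ⟨e, he, mem_sdiff.2 ⟨hze, hz'⟩⟩)
  have h3' : (T.biUnion fun e => e \ {x, y}).card ≤ T.card * (r - 2) := by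
    refine card_biUnion_le_card_mul _ _ _ fun e he => ?_
    obtain ⟨heH, hex, hey⟩ := mem_filter.1 (hT he)
    have h4 : ({x, y} : Finset (Fin n)) ⊆ e := by
      intro z hz
      rcases mem_insert.1 hz with h | h
      · rw [h]; exact hex
      · rw [mem_singleton.1 h]; exact hey
    rw [card_sdiff_of_subset h4, hu e heH, card_pair hxy]
  have h5 := (card_le_card h2).trans (card_union_le _ _)
  rw [card_pair hxy] at h5
  have h6 := hF T (fun e he => (mem_filter.1 (hT he)).1) hTc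
  rw [hTc] at h3'
  omega

theorem exists_tuple {n r : ℕ} (hr : 3 ≤ r) (hn : 0 < n) (H : Finset (Finset (Fin n)))
    (hu : ∀ e ∈ H, e.card = r) (hF : Four H r)
    (P : Finpartition (univ : Finset (Fin n))) (hP : P.IsEquipartition) (e₁ e₂ : ℝ)
    (he₂ : 0 < e₂) (he : e₂ ≤ e₁) (hPu : P.IsUniform (shadow H) (e₂ / 8))
    (hl : 4 / e₂ ≤ (P.parts.card : ℝ)) (hc : 6 * e₁ * (n : ℝ) ^ 2 ≤ (H.card : ℝ)) :
    ∃ x : Fin r → Fin n, ∀ i j, i ≠ j →
      ((shadow H).regularityReduced P (e₁ / 8) (e₁ / 4)).Adj (x i) (x j) ∧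
      ((shadow H).regularityReduced P (e₂ / 8) (e₂ / 4)).Adj (x i) (x j) := by
  classical
  set G := shadow H with hG
  set R₁ := G.regularityReduced P (e₁ / 8) (e₁ / 4) with hR₁
  set R₂ := G.regularityReduced P (e₂ / 8) (e₂ / 4) with hR₂
  have he₁ : 0 < e₁ := by linarith
  have : Nonempty (Fin n) := ⟨⟨0, by omega⟩⟩
  have k₁ := regularityReduced_edges_card_aux (G := G) he₁ hP (hPu.mono (by linarith))
    ((div_le_div_of_nonneg_left (by norm_num) he₂ he).trans hl)
  have k₂ := regularityReduced_edges_card_aux (G := G) he₂ hP hPu hl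
  rw [Fintype.card_fin] at k₁ k₂
  push_cast at k₁ k₂
  set K := (G.edgeFinset \ R₁.edgeFinset) ∪ (G.edgeFinset \ R₂.edgeFinset) with hK
  have s₁ : R₁.edgeFinset ⊆ G.edgeFinset := edgeFinset_mono regularityReduced_le
  have s₂ : R₂.edgeFinset ⊆ G.edgeFinset := edgeFinset_mono regularityReduced_le
  have hKc : (K.card : ℝ) < 2 * e₁ * (n : ℝ) ^ 2 := by
    have h1 : (K.card : ℝ) ≤ ((G.edgeFinset \ R₁.edgeFinset).card : ℝ) +
        ((G.edgeFinset \ R₂.edgeFinset).card : ℝ) := by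
      exact_mod_cast card_union_le _ _
    rw [cast_card_sdiff s₁, cast_card_sdiff s₂] at h1
    have h2 : e₂ * (n : ℝ) ^ 2 ≤ e₁ * (n : ℝ) ^ 2 := mul_le_mul_of_nonneg_right he (by positivity)
    linarith
  obtain ⟨e, heH, hgood⟩ : ∃ e ∈ H, ∀ x ∈ e, ∀ y ∈ e, x ≠ y → s(x, y) ∉ K := by
    by_contra hcon
    push Not at hcon
    choose! f hf g hg hfg hfK using hcon
    have h1 : H.card ≤ 3 * (H.image fun e => s(f e, g e)).card := by
      refine card_le_mul_card_image _ _ fun b hb => ?_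
      obtain ⟨e, he, rfl⟩ := mem_image.1 hb
      refine (card_le_card ?_).trans (codeg_r hr H hu hF (f e) (g e) (hfg e he))
      intro e' he'
      obtain ⟨h1, h2⟩ := mem_filter.1 he'
      refine mem_filter.2 ⟨h1, ?_⟩
      rcases Sym2.eq_iff.1 h2 with h | h
      · rw [← h.1, ← h.2]
        exact ⟨hf e' h1, hg e' h1⟩
      · rw [← h.1, ← h.2]
        exact ⟨hg e' h1, hf e' h1⟩
    have h2 : (H.image fun e => s(f e, g e)).card ≤ K.card := by
      refine card_le_card fun b hb => ?_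
      obtain ⟨e, he, rfl⟩ := mem_image.1 hb
      exact hfK e he
    have h4 : (H.card : ℝ) ≤ 3 * K.card := by exact_mod_cast h1.trans (Nat.mul_le_mul_left 3 h2)
    linarith
  have key : ∀ x ∈ e, ∀ y ∈ e, x ≠ y → R₁.Adj x y ∧ R₂.Adj x y := by
    intro x hx y hy hxy
    have h1 := hgood x hx y hy hxy
    have h2 : s(x, y) ∈ G.edgeFinset := by
      rw [mem_edgeFinset, mem_edgeSet]
      exact ⟨hxy, e, heH, hx, hy⟩
    rw [hK, mem_union, not_or, mem_sdiff, mem_sdiff, not_and, not_and, not_not, not_not] at h1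
    have h4 := h1.1 h2
    have h5 := h1.2 h2
    rw [mem_edgeFinset, mem_edgeSet] at h4 h5
    exact ⟨h4, h5⟩
  refine ⟨fun i => e.orderEmbOfFin (hu e heH) i, fun i j hij => key _ (orderEmbOfFin_mem _ _ _) _
    (orderEmbOfFin_mem _ _ _) ?_⟩
  intro h
  exact hij ((e.orderEmbOfFin (hu e heH)).injective h)

theorem universal_r (r : ℕ) (hr : 3 ≤ r) (ε : ℝ) (hε : 0 < ε) (k : ℕ) : ∃ c : ℝ, 0 < c ∧ ∃ N : ℕ, ∀ n : ℕ, N ≤ n →
    ∀ H : Finset (Finset (Fin n)), (∀ e ∈ H, e.card = r) → Four H r →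
      ε * (n : ℝ) ^ 2 ≤ (H.card : ℝ) →
      ∀ F : SimpleGraph (Fin k), F.Colorable r →
        c * (n : ℝ) ^ k ≤ (Nat.card {φ : Fin k → Fin n // Function.Injective φ ∧
          ∀ i j, i ≠ j → (F.Adj i j ↔ ∃ e ∈ H, φ i ∈ e ∧ φ j ∈ e)} : ℝ) := by
  classical
  -- parameters
  set e₁ : ℝ := min (ε / 6) 1 with he₁
  have he₁0 : 0 < e₁ := lt_min (by positivity) one_pos
  have he₁1 : e₁ ≤ 1 := min_le_right _ _
  have he₁ε : 6 * e₁ ≤ ε := by
    have := min_le_left (ε / 6) 1
    linarith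
  set θ : ℝ := e₁ / 8 with hθ
  have hθ0 : 0 < θ := by positivity
  have hθ1 : θ ≤ 1 / 8 := by linarith
  set e₂ : ℝ := min e₁ (4 * θ ^ k / (k + 1)) with he₂
  have he₂0 : 0 < e₂ := lt_min he₁0 (by positivity)
  have he₂1 : e₂ ≤ e₁ := min_le_left _ _
  have he₂k : e₂ * k ≤ 4 * θ ^ k := by
    have h1 : e₂ ≤ 4 * θ ^ k / (k + 1) := min_le_right _ _
    rw [le_div_iff₀ (by positivity)] at h1
    nlinarith
  set l : ℕ := ⌈4 / e₂⌉₊ with hl
  have hl' : 4 / e₂ ≤ l := Nat.le_ceil _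
  set M : ℕ := SzemerediRegularity.bound (e₂ / 8) l with hM
  have hM0 : (0 : ℝ) < M := by
    have : 0 < M := SzemerediRegularity.bound_pos _ _
    exact_mod_cast this
  set ε₂ : ℝ := (e₂ / 8 / M) ^ 2 / 4 with hε₂
  obtain ⟨N₁, hN₁⟩ := half_r r hr ε₂ (by positivity)
  obtain ⟨N₂, hN₂⟩ := exists_nat_gt (64 * M / e₂)
  refine ⟨(e₂ / 8 / M) ^ k, by positivity, max N₁ (max N₂ (max l 7)),
    fun n hn H hu hFo hc F hF => ?_⟩
  have hn1 : N₁ ≤ n := le_trans (le_max_left _ _) hn
  have hn2 : N₂ ≤ n := le_trans (le_trans (le_max_left _ _) (le_max_right _ _)) hn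
  have hn3 : l ≤ n := le_trans (le_trans (le_max_left _ _)
    (le_trans (le_max_right _ _) (le_max_right _ _))) hn
  have hn4 : 7 ≤ n := le_trans (le_trans (le_max_right _ _)
    (le_trans (le_max_right _ _) (le_max_right _ _))) hn
  have hn0 : (0 : ℝ) < n := by
    have : 0 < n := by omega
    exact_mod_cast this
  have hnM : 64 * M / e₂ < (n : ℝ) := lt_of_lt_of_le hN₂ (by exact_mod_cast hn2)
  set G := shadow H with hG
  -- the regular partition
  obtain ⟨P, hP1, hP2, hP3, hP4⟩ := szemeredi_regularity G (by positivity : 0 < e₂ / 8)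
    (show l ≤ Fintype.card (Fin n) by simpa using hn3)
  have hPl : 4 / e₂ ≤ (P.parts.card : ℝ) := hl'.trans (by exact_mod_cast hP2)
  obtain ⟨x, hx⟩ := exists_tuple hr (by omega) H hu hFo P hP1 e₁ e₂ he₂0 he₂1 hP4 hPl
    (le_trans (mul_le_mul_of_nonneg_right he₁ε (by positivity)) hc)
  -- sizes of the parts
  set q : ℕ := Fintype.card (Fin n) / P.parts.card with hq
  have hPc : (0 : ℝ) < P.parts.card := by
    have h1 : 0 < 4 / e₂ := by positivity
    linarith
  have hPc' : 0 < P.parts.card := by exact_mod_cast hPc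
  have hq1 : (n : ℝ) / M < q + 1 := by
    have h1 : (n : ℝ) / P.parts.card < q + 1 := by
      rw [div_lt_iff₀ hPc]
      have h2 : n < (q + 1) * P.parts.card := by
        rw [hq, Fintype.card_fin]
        have h4 := Nat.div_add_mod n P.parts.card
        have h5 := Nat.mod_lt n hPc'
        nlinarith
      exact_mod_cast h2
    refine lt_of_le_of_lt ?_ h1
    exact div_le_div_of_nonneg_left hn0.le hPc (by exact_mod_cast hP3)
  have hlo : ∀ U ∈ P.parts, (q : ℝ) ≤ U.card := by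
    intro U hU
    have h1 := hP1.average_le_card_part hU
    rw [card_univ] at h1
    exact_mod_cast h1
  have hup : ∀ U ∈ P.parts, (U.card : ℝ) ≤ q + 1 := by
    intro U hU
    have h1 := hP1.card_part_le_average_add_one hU
    rw [card_univ] at h1
    exact_mod_cast h1
  have h64 : 64 / e₂ < (q : ℝ) + 1 := by
    refine lt_of_le_of_lt ?_ hq1
    rw [le_div_iff₀ hM0]
    rw [div_mul_eq_mul_div]
    exact hnM.le
  have hq0 : (1 : ℝ) ≤ q := by
    have h1 : (64 : ℝ) ≤ 64 / e₂ := by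
      rw [le_div_iff₀ he₂0]
      nlinarith
    linarith
  set m : ℝ := e₂ / 8 * (q + 1) with hm
  have hm8 : 8 ≤ m := by
    rw [hm]
    rw [div_lt_iff₀ he₂0] at h64
    linarith
  -- the colouring and the candidate sets
  obtain ⟨c⟩ := hF
  set W : Fin k → Finset (Fin n) := fun j => P.part (x (c j)) with hW
  have hWp : ∀ j, W j ∈ P.parts := fun j => P.part_mem.2 (mem_univ _)
  have hmn : e₂ / 8 / M * n ≤ m := by
    rw [hm, div_mul_eq_mul_div, mul_div_assoc]
    exact mul_le_mul_of_nonneg_left hq1.le (by positivity)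
  have hadj : ∀ i j, F.Adj i j → ∀ A ⊆ W i, ∀ B ⊆ W j, m ≤ (A.card : ℝ) → m ≤ (B.card : ℝ) →
      θ * (A.card * B.card) ≤ ed G A B := by
    intro i j hij A hA B hB hAm hBm
    have hcij : c i ≠ c j := c.valid hij
    obtain ⟨h1, h2⟩ := hx (c i) (c j) hcij
    obtain ⟨-, U, hU, U', hU', haU, hbU', -, -, hden⟩ := h1
    obtain ⟨-, Z, hZ, Z', hZ', haZ, hbZ', -, huni, -⟩ := h2
    have e1 : W i = U := P.part_eq_of_mem hU haU
    have e2 : W j = U' := P.part_eq_of_mem hU' hbU'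
    have e3 : W i = Z := P.part_eq_of_mem hZ haZ
    have e4 : W j = Z' := P.part_eq_of_mem hZ' hbZ'
    rw [← e3, ← e4] at huni
    rw [← e1, ← e2] at hden
    have h3' := huni hA hB (by
      refine le_trans ?_ hAm
      rw [hm, mul_comm]
      exact mul_le_mul_of_nonneg_left (hup _ (hWp i)) (by positivity)) (by
      refine le_trans ?_ hBm
      rw [hm, mul_comm]
      exact mul_le_mul_of_nonneg_left (hup _ (hWp j)) (by positivity))
    have h4 : θ ≤ ((G.edgeDensity A B : ℚ) : ℝ) := by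
      rw [abs_lt] at h3'
      linarith [h3'.1]
    have hAp : (0 : ℝ) < A.card := by linarith
    have hBp : (0 : ℝ) < B.card := by linarith
    have h5 : ed G A B = ((G.edgeDensity A B : ℚ) : ℝ) * (A.card * B.card) := by
      rw [edgeDensity_def]
      push_cast
      rw [div_mul_cancel₀ _ (by positivity)]
      rfl
    rw [h5]
    exact mul_le_mul_of_nonneg_right h4 (by positivity)
  have hnon : ∀ A B : Finset (Fin n), m ≤ (A.card : ℝ) → m ≤ (B.card : ℝ) →
      ed G A B ≤ 3 / 4 * (A.card * B.card) := by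
    intro A B hA hB
    have h1 := hN₁ n hn1 H hu hFo A B
    have h2 : ed G A B = (((A ×ˢ B).filter
        (fun q => q.1 ≠ q.2 ∧ ∃ e ∈ H, q.1 ∈ e ∧ q.2 ∈ e)).card : ℝ) := rfl
    rw [← h2] at h1
    have h4 := hmn
    have h5 : 0 ≤ e₂ / 8 / M * n := by positivity
    have h6 : ε₂ * (n : ℝ) ^ 2 = (e₂ / 8 / M * n) * (e₂ / 8 / M * n) / 4 := by
      rw [hε₂]
      ring
    have h7' : (e₂ / 8 / M * n) * (e₂ / 8 / M * n) ≤ A.card * B.card :=
      mul_le_mul (h4.trans hA) (h4.trans hB) h5 (by positivity)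
    linarith
  have hemb := embed G F W θ m hθ0 hθ1 hm8 hadj hnon ⟨0, by omega⟩ univ W (fun j _ => subset_rfl)
    (fun j _ => by
      rw [card_univ, Fintype.card_fin]
      refine le_trans ?_ (hlo _ (hWp j))
      rw [hm, inv_pow]
      have h1 : e₂ / 8 * (q + 1) * k * (θ ^ k)⁻¹ ≤ (q + 1) / 2 := by
        rw [← div_eq_mul_inv, div_le_iff₀ (by positivity)]
        have h2 : (e₂ * k) * (q + 1) ≤ (4 * θ ^ k) * (q + 1) :=
          mul_le_mul_of_nonneg_right he₂k (by positivity)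
        linarith
      linarith)
  rw [card_univ, Fintype.card_fin] at hemb
  have h1 : (e₂ / 8 / M) ^ k * (n : ℝ) ^ k ≤ m ^ k := by
    rw [← mul_pow]
    exact pow_le_pow_left₀ (by positivity) hmn k
  refine h1.trans (hemb.trans ?_)
  have h2 : (embs G F (⟨0, by omega⟩ : Fin n) univ W).card ≤
      Nat.card {φ : Fin k → Fin n // Function.Injective φ ∧
          ∀ i j, i ≠ j → (F.Adj i j ↔ ∃ e ∈ H, φ i ∈ e ∧ φ j ∈ e)} := by
    rw [Nat.card_eq_fintype_card, Fintype.card_subtype]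
    refine card_le_card fun φ hφ => ?_
    obtain ⟨-, -, hφ⟩ := (mem_embs _ _ _ _ _ _).1 hφ
    refine mem_filter.2 ⟨mem_univ _, fun i j hij => ?_, fun i j hij => ?_⟩
    · by_contra h
      exact (hφ i (mem_univ _) j (mem_univ _) h).1 hij
    · obtain ⟨h1, h2⟩ := hφ i (mem_univ _) j (mem_univ _) hij
      rw [← h2]
      constructor
      · intro h
        exact h.2
      · intro h
        exact ⟨h1, h⟩
  exact_mod_cast h2

end Pool.Agent.Helper18.UN
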